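import Pool.Agent.H93.CP.Targets

/-!
# Row CIN of cpt_modules (MP_5607ba_lc): the core is invariant under the dense subgroup
-/

set_option autoImplicit false

open Set Filter Topology Pool.Agent.H93.CP

namespace Pool.Agent.H63.CPT

theorem pf_CIN : T_CIN := by
  intro G X _ _ _ _ _ _ D t hT d hd y hy O hO hdy
  have hO' : IsOpen[t] ((fun x : X => d • x) ⁻¹' O) := by
    have h := hT.dcont d hd
    exact @IsOpen.preimage X X t t _ h O hO
  obtain ⟨U, hU, h1U, hm⟩ := hy _ hO' hdy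
  refine ⟨(fun k : G => d⁻¹ * k * d) ⁻¹' U, ?_, ?_, ?_⟩
  · exact hU.preimage (by fun_prop)
  · rw [mem_preimage]
    simpa using h1U
  · have hm' : IsMeagre {g : G | g ∈ U ∧ g • y ∉ (fun x : X => d • x) ⁻¹' O} := hm
    have h2 := hm'.preimage_of_isOpenMap (f := fun k : G => d⁻¹ * k * d) (by fun_prop)
      ((isOpenMap_mul_right d).comp (isOpenMap_mul_left d⁻¹))
    change IsMeagre {g : G | g ∈ (fun k : G => d⁻¹ * k * d) ⁻¹' U ∧ g • (d • y) ∉ O}
    refine h2.mono ?_
    rintro k ⟨hk1, hk2⟩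
    refine ⟨hk1, ?_⟩
    intro h3
    apply hk2
    have h4 : d • (d⁻¹ * k * d) • y ∈ O := h3
    rw [← mul_smul] at h4 ⊢
    have h5 : d * (d⁻¹ * k * d) = k * d := by group
    rwa [h5] at h4

end Pool.Agent.H63.CPT
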